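import Mathlib
import Pool.Agent.N852.Adel

/-!
Manin's conjecture over the rational numbers for complete intersections `X` of two divisors of
type `(1,1)` in the product of two projective spaces of dimension `N - 1 ≥ 3`, for all rational
points and all adelic anticanonical heights, if the discriminant form is irreducible.

* `M 0`, `M 1`: integer `N × N` matrices; `OnX M x y` says that the vectors `x`, `y` satisfy the two
  equations `x ᵀ M k y = 0`, which define `X`.
* `discr M` is the polynomial `det (t M₀ + M₁)` in `t`.  The two conditions `det M₀ ≠ 0` and `discr M`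
  irreducible say that the binary form `det (s M₀ + t M₁)` of degree `N` is irreducible over `ℚ`.
* `LocalFactor M φ`: a positive continuous function on `X(K)`, written as a function of the
  coordinate vectors, which does not change if the vectors are multiplied by nonzero scalars.
* `height M S φ₀ φ P` for a pair `P` of rational points of the projective space: the adelic height
  `(H(P₁) H(P₂)) ^ (N - 2) φ₀(P) ∏_{p ∈ S} φ_p(P)`, where `H` is the usual height of a rational point of
  the projective space (of Mathlib).  The anticanonical bundle of `X` is `O(N - 2, N - 2)`, the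
  canonical metric at a place `v` is given by the maximum norm, and every other `v`-adic metric
  differs from it by a positive continuous function on `X(ℚ_v)`; so these are the heights of all
  adelic metrics on the anticanonical bundle.

The theorem: the Jacobian criterion holds at all complex points of `X`, and for every such height
the number of all rational points of `X` of height at most `B` is asymptotic to `c B log B` with
some `c > 0`.
-/

namespace Pool.Agent.Results.MP_1acd66_nt.BilinearPencilAllHeights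

open Matrix Filter Topology Polynomial

variable {N : ℕ}

/-- the two equations `x ᵀ M k y = 0` of `X` -/
def OnX {K : Type*} [CommRing K] (M : Fin 2 → Matrix (Fin N) (Fin N) ℤ) (x y : Fin N → K) : Prop :=
  ∀ k, x ⬝ᵥ ((M k).map (Int.cast : ℤ → K) *ᵥ y) = 0

/-- the polynomial `det (t M₀ + M₁)` in `t` -/
noncomputable def discr (M : Fin 2 → Matrix (Fin N) (Fin N) ℤ) : ℚ[X] :=
  ((X : ℚ[X]) • (M 0).map (fun a => (C (a : ℚ) : ℚ[X])) +
    (M 1).map fun a => (C (a : ℚ) : ℚ[X])).det

/-- positive continuous functions on `X(K)` -/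
structure LocalFactor {K : Type*} [NormedField K] (M : Fin 2 → Matrix (Fin N) (Fin N) ℤ)
    (φ : (Fin N → K) → (Fin N → K) → ℝ) : Prop where
  continuous : ContinuousOn (fun p : (Fin N → K) × (Fin N → K) => φ p.1 p.2)
    {p | p.1 ≠ 0 ∧ p.2 ≠ 0 ∧ OnX M p.1 p.2}
  positive : ∀ x y, x ≠ 0 → y ≠ 0 → OnX M x y → 0 < φ x y
  invariant : ∀ x y, x ≠ 0 → y ≠ 0 → OnX M x y → ∀ s t : K, s ≠ 0 → t ≠ 0 →
    φ (s • x) (t • y) = φ x y

/-- extension of scalars -/
def ext (K : Type*) [Field K] (v : Fin N → ℚ) : Fin N → K := fun i => (v i : K)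

instance (p : Nat.Primes) : Fact (p : ℕ).Prime := ⟨p.2⟩

/-- the adelic anticanonical height of a pair of rational points of the projective space -/
noncomputable def height (S : Finset Nat.Primes) (φ₀ : (Fin N → ℝ) → (Fin N → ℝ) → ℝ)
    (φ : ∀ p : Nat.Primes, (Fin N → ℚ_[p]) → (Fin N → ℚ_[p]) → ℝ)
    (P : Projectivization ℚ (Fin N → ℚ) × Projectivization ℚ (Fin N → ℚ)) : ℝ :=
  (P.1.mulHeight * P.2.mulHeight) ^ (N - 2) *
    (φ₀ (ext ℝ P.1.rep) (ext ℝ P.2.rep) * ∏ p ∈ S, φ p (ext ℚ_[p] P.1.rep) (ext ℚ_[p] P.2.rep))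

theorem result (hN : 4 ≤ N) (M : Fin 2 → Matrix (Fin N) (Fin N) ℤ) (hdet : (M 0).det ≠ 0)
    (hirr : Irreducible (discr M)) :
    (∀ x y : Fin N → ℂ, x ≠ 0 → y ≠ 0 → OnX M x y → LinearIndependent ℂ fun k =>
      (((M k).map (Int.cast : ℤ → ℂ) *ᵥ y, x ᵥ* (M k).map (Int.cast : ℤ → ℂ)) :
        (Fin N → ℂ) × (Fin N → ℂ))) ∧
    ∀ (S : Finset Nat.Primes) (φ₀ : (Fin N → ℝ) → (Fin N → ℝ) → ℝ),
      LocalFactor M φ₀ →
      ∀ φ : ∀ p : Nat.Primes, (Fin N → ℚ_[p]) → (Fin N → ℚ_[p]) → ℝ,
      (∀ p ∈ S, LocalFactor M (φ p)) →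
      ∃ c : ℝ, 0 < c ∧ Tendsto (fun B : ℝ =>
        (({P : Projectivization ℚ (Fin N → ℚ) × Projectivization ℚ (Fin N → ℚ) |
          OnX M P.1.rep P.2.rep ∧ height S φ₀ φ P ≤ B} : Set _).ncard : ℝ) /
          (B * Real.log B)) atTop (𝓝 c) := by
  refine ⟨N852.smooth_of_irr hdet hirr, fun S φ₀ h₀ φ h => ?_⟩
  exact N852.main_adel (N852.nice_of_irr hN hdet hirr) S φ₀ ⟨h₀.1, h₀.2, h₀.3⟩ φ
    fun p hp => ⟨(h p hp).1, (h p hp).2, (h p hp).3⟩

end Pool.Agent.Results.MP_1acd66_nt.BilinearPencilAllHeights
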