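import Mathlib
import Pool.Agent.N852.DD.AdelR

/-!
Manin's conjecture over the rational numbers for all smooth complete intersections `X` of `k`
divisors of type `(1,1)` in the product of two projective spaces of dimensions `n - 1, m - 1 ≥ 2 k`,
for an explicit open subset and all adelic anticanonical heights.

* `M i`, `i = 1, ..., k`: integer `n × m` matrices; `OnX M x y` says that the vectors `x`, `y`
  satisfy the `k` equations `x ᵀ M i y = 0`, which define `X`.
* `Jacobian M`: at all complex points of `X` the `k` gradients are linearly independent, i.e. `X` is a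
  smooth complete intersection.
* `InU M x y`: the `k` linear forms `x ᵀ M i` are linearly independent and the `k` linear forms `M i y`
  are linearly independent.  This says that the point lies in the open subset `U` of `X`, the
  complement of the two closed subsets where a fibre of one of the two projections of `X` is a
  linear space of dimension larger than expected.
* `LocalFactor M φ`: a positive continuous function on `X(K)`, written as a function of the
  coordinate vectors, which does not change if the vectors are multiplied by nonzero scalars.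
* `height k S φ₀ φ P` for a pair `P` of rational points of the projective spaces: the adelic height
  `H(P₁) ^ (n - k) H(P₂) ^ (m - k) φ₀(P) ∏_{p ∈ S} φ_p(P)`, where `H` is the usual height of a rational
  point of a projective space (of Mathlib).  The anticanonical bundle of `X` is `O(n - k, m - k)`, the
  canonical metric at a place `v` is given by the maximum norm, and every other `v`-adic metric
  differs from it by a positive continuous function on `X(ℚ_v)`; so these are the heights of all
  adelic metrics on the anticanonical bundle.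

The theorem: for every such height the number of all rational points of `U` of height at most `B` is
asymptotic to `c B log B` with some `c > 0`.
-/

namespace Pool.Agent.Results.MP_1acd66_nt.CompleteIntersectionsAllHeights

open Matrix Filter Topology

variable {k n m : ℕ}

/-- the `k` equations `x ᵀ M i y = 0` of `X` -/
def OnX {K : Type*} [CommRing K] (M : Fin k → Matrix (Fin n) (Fin m) ℤ) (x : Fin n → K)
    (y : Fin m → K) : Prop :=
  ∀ i, x ⬝ᵥ ((M i).map (Int.cast : ℤ → K) *ᵥ y) = 0

/-- the Jacobian criterion at all complex points of `X` -/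
def Jacobian (M : Fin k → Matrix (Fin n) (Fin m) ℤ) : Prop :=
  ∀ (x : Fin n → ℂ) (y : Fin m → ℂ), x ≠ 0 → y ≠ 0 → OnX M x y → LinearIndependent ℂ fun i =>
    (((M i).map (Int.cast : ℤ → ℂ) *ᵥ y, x ᵥ* (M i).map (Int.cast : ℤ → ℂ)) :
      (Fin n → ℂ) × (Fin m → ℂ))

/-- the open subset `U` -/
def InU {K : Type*} [Field K] (M : Fin k → Matrix (Fin n) (Fin m) ℤ) (x : Fin n → K)
    (y : Fin m → K) : Prop :=
  (LinearIndependent K fun i => x ᵥ* (M i).map (Int.cast : ℤ → K)) ∧
    LinearIndependent K fun i => (M i).map (Int.cast : ℤ → K) *ᵥ y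

/-- positive continuous functions on `X(K)` -/
structure LocalFactor {K : Type*} [NormedField K] (M : Fin k → Matrix (Fin n) (Fin m) ℤ)
    (φ : (Fin n → K) → (Fin m → K) → ℝ) : Prop where
  continuous : ContinuousOn (fun p : (Fin n → K) × (Fin m → K) => φ p.1 p.2)
    {p | p.1 ≠ 0 ∧ p.2 ≠ 0 ∧ OnX M p.1 p.2}
  positive : ∀ x y, x ≠ 0 → y ≠ 0 → OnX M x y → 0 < φ x y
  invariant : ∀ x y, x ≠ 0 → y ≠ 0 → OnX M x y → ∀ s t : K, s ≠ 0 → t ≠ 0 →
    φ (s • x) (t • y) = φ x y

/-- extension of scalars -/
def ext (K : Type*) [Field K] {N : ℕ} (v : Fin N → ℚ) : Fin N → K := fun i => (v i : K)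

instance (p : Nat.Primes) : Fact (p : ℕ).Prime := ⟨p.2⟩

/-- the adelic anticanonical height of a pair of rational points of the projective spaces -/
noncomputable def height (k : ℕ) (S : Finset Nat.Primes) (φ₀ : (Fin n → ℝ) → (Fin m → ℝ) → ℝ)
    (φ : ∀ p : Nat.Primes, (Fin n → ℚ_[p]) → (Fin m → ℚ_[p]) → ℝ)
    (P : Projectivization ℚ (Fin n → ℚ) × Projectivization ℚ (Fin m → ℚ)) : ℝ :=
  P.1.mulHeight ^ (n - k) * P.2.mulHeight ^ (m - k) *
    (φ₀ (ext ℝ P.1.rep) (ext ℝ P.2.rep) * ∏ p ∈ S, φ p (ext ℚ_[p] P.1.rep) (ext ℚ_[p] P.2.rep))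

theorem result (hk : 1 ≤ k) (hn : 2 * k + 1 ≤ n) (hm : 2 * k + 1 ≤ m)
    (M : Fin k → Matrix (Fin n) (Fin m) ℤ) (hM : Jacobian M)
    (S : Finset Nat.Primes) (φ₀ : (Fin n → ℝ) → (Fin m → ℝ) → ℝ) (h₀ : LocalFactor M φ₀)
    (φ : ∀ p : Nat.Primes, (Fin n → ℚ_[p]) → (Fin m → ℚ_[p]) → ℝ)
    (h : ∀ p ∈ S, LocalFactor M (φ p)) :
    ∃ c : ℝ, 0 < c ∧ Tendsto (fun B : ℝ =>
      (({P : Projectivization ℚ (Fin n → ℚ) × Projectivization ℚ (Fin m → ℚ) |
        OnX M P.1.rep P.2.rep ∧ InU M P.1.rep P.2.rep ∧ height k S φ₀ φ P ≤ B} :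
          Set _).ncard : ℝ) / (B * Real.log B)) atTop (𝓝 c) :=
  N852.DD.main_adel hM hk hn hm S φ₀ ⟨h₀.1, h₀.2, h₀.3⟩ φ
    fun p hp => ⟨(h p hp).1, (h p hp).2, (h p hp).3⟩

end Pool.Agent.Results.MP_1acd66_nt.CompleteIntersectionsAllHeights
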