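import Mathlib
import Pool.Agent.N852.MM.EngI

/-!
Manin's conjecture over the rational numbers for complete intersections `X` of multilinear
hypersurfaces in products of any number `m` of projective spaces, for an explicit open subset and
all adelic anticanonical heights.

* `Tuple n K`: families `x` of vectors `x v` of length `n v`, `v = 1, ..., m`: the coordinates of
  the points of the product of the projective spaces of dimensions `n v - 1`.
* `System n k`: `k` forms with integer coefficients; the `i`-th form is linear in each of the
  vectors `x v` with `v` in the set `e i` and does not depend on the others; `T i` is the array of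
  its coefficients and `form F i x` its value.
* `OnX F x`: all forms vanish at `x`; this defines `X`.
* `grad F i v x`: the vector of the partial derivatives of the `i`-th form with respect to the
  coordinates of the vector `x v` (the form is linear in `x v`, so these are its values at the unit
  vectors).
* `deg F v`: the number of the forms which depend on `x v`.
* `InU F x`: for every `v` the vectors `grad F i v x`, for the forms which depend on `x v`, are
  linearly independent.  This defines the open subset `U` of `X`, the complement of the closed
  subsets of `X` where a fibre of one of the projections which forget one of the `m` factors is a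
  linear space of dimension larger than expected.
* `RankCondition F`: the vectors have at least one coordinate, every form depends on at least two
  vectors, every vector occurs in a form, and
  for any two different `u`, `v` every nontrivial real linear combination of the forms which depend
  on `x u` and on `x v` is a bilinear form in `x u`, `x v` of rank larger than the sum of the
  numbers of vectors in the forms, whatever nonzero real vectors are inserted for the other
  variables.
* `LocalFactor F φ`: a positive continuous function on `X(K)`, written as a function of the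
  coordinate vectors, which does not change if the vectors are multiplied by nonzero scalars.
* `height F S φ₀ φ P` for a family `P` of rational points of the projective spaces: the adelic
  height `∏_v H(P_v) ^ (n v - deg F v) φ₀(P) ∏_{p ∈ S} φ_p(P)`, where `H` is the usual height of a
  rational point of a projective space (of Mathlib).  The anticanonical bundle of `X` is
  `O(n v - deg F v)_v`, the canonical metric at a place is given by the maximum norm, and every
  other metric differs from it by a positive continuous function on `X(ℚ_p)`; so these are the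
  heights of all adelic metrics on the anticanonical bundle.

The theorem: for every such height the number of all rational points of `U` of height at most `B` is
asymptotic to `c B (log B) ^ (m - 1)` with some `c > 0`.
-/

namespace Pool.Agent.Results.MP_1acd66_nt.MultilinearSystemsAllHeights

open Filter Topology Function

variable {m k : ℕ} {n : Fin m → ℕ}

/-- families of vectors of lengths `n v` -/
abbrev Tuple (n : Fin m → ℕ) (K : Type*) : Type _ := ∀ v, Fin (n v) → K

/-- `k` multilinear forms -/
structure System (n : Fin m → ℕ) (k : ℕ) where
  /-- the set of the vectors which occur in the `i`-th form -/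
  e : Fin k → Finset (Fin m)
  /-- the coefficients of the `i`-th form -/
  T : ∀ i, (∀ v : e i, Fin (n v)) → ℤ

/-- the value of the `i`-th form -/
def form (F : System n k) {K : Type*} [CommRing K] (i : Fin k) (x : Tuple n K) : K :=
  ∑ j : (∀ v : F.e i, Fin (n v)), (F.T i j : K) * ∏ v : F.e i, x v (j v)

/-- the equations of `X` -/
def OnX (F : System n k) {K : Type*} [CommRing K] (x : Tuple n K) : Prop :=
  ∀ i, form F i x = 0

/-- the partial derivatives of the `i`-th form with respect to the coordinates of `x v` -/
def grad (F : System n k) {K : Type*} [CommRing K] (i : Fin k) (v : Fin m) (x : Tuple n K) :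
    Fin (n v) → K :=
  fun l => form F i (update x v (Pi.single l 1))

/-- the number of the forms which depend on `x v` -/
def deg (F : System n k) (v : Fin m) : ℕ := (Finset.univ.filter fun i => v ∈ F.e i).card

/-- the open subset `U` -/
def InU (F : System n k) {K : Type*} [Field K] (x : Tuple n K) : Prop :=
  ∀ v, LinearIndependent K fun i : {i : Fin k // v ∈ F.e i} => grad F i v x

/-- the hypothesis on the forms -/
structure RankCondition (F : System n k) : Prop where
  pos : ∀ v, 1 ≤ n v
  two : ∀ i, 2 ≤ (F.e i).card
  cover : ∀ v, ∃ i, v ∈ F.e i
  rank : ∀ u v, u ≠ v → ∀ s : Fin k → ℝ, (∀ i, s i ≠ 0 → u ∈ F.e i ∧ v ∈ F.e i) → s ≠ 0 →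
    ∀ x : Tuple n ℝ, (∀ t, t ≠ u → t ≠ v → x t ≠ 0) →
    ∑ i, (F.e i).card < (Matrix.of fun (b : Fin (n v)) (c : Fin (n u)) => ∑ i, s i *
      form F i (update (update x v (Pi.single b 1)) u (Pi.single c 1))).rank

/-- positive continuous functions on `X(K)` -/
structure LocalFactor {K : Type*} [NormedField K] (F : System n k) (φ : Tuple n K → ℝ) :
    Prop where
  continuous : ContinuousOn φ {x | (∀ v, x v ≠ 0) ∧ OnX F x}
  positive : ∀ x, (∀ v, x v ≠ 0) → OnX F x → 0 < φ x
  invariant : ∀ x, (∀ v, x v ≠ 0) → OnX F x → ∀ c : Fin m → K, (∀ v, c v ≠ 0) →
    φ (fun v => c v • x v) = φ x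

/-- extension of scalars -/
def ext (K : Type*) [Field K] (x : Tuple n ℚ) : Tuple n K := fun v l => (x v l : K)

instance (p : Nat.Primes) : Fact (p : ℕ).Prime := ⟨p.2⟩

/-- the adelic anticanonical height of a family of rational points of the projective spaces -/
noncomputable def height (F : System n k) (S : Finset Nat.Primes) (φ₀ : Tuple n ℝ → ℝ)
    (φ : ∀ p : Nat.Primes, Tuple n ℚ_[p] → ℝ) (P : ∀ v, Projectivization ℚ (Fin (n v) → ℚ)) : ℝ :=
  (∏ v, (P v).mulHeight ^ (n v - deg F v)) *
    (φ₀ (ext ℝ fun v => (P v).rep) * ∏ p ∈ S, φ p (ext ℚ_[p] fun v => (P v).rep))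

theorem result (hk : 1 ≤ k) (F : System n k) (hF : RankCondition F)
    (S : Finset Nat.Primes) (φ₀ : Tuple n ℝ → ℝ) (h₀ : LocalFactor F φ₀)
    (φ : ∀ p : Nat.Primes, Tuple n ℚ_[p] → ℝ) (h : ∀ p ∈ S, LocalFactor F (φ p)) :
    ∃ c : ℝ, 0 < c ∧ Tendsto (fun B : ℝ =>
      (({P : ∀ v, Projectivization ℚ (Fin (n v) → ℚ) |
        OnX F (fun v => (P v).rep) ∧ InU F (fun v => (P v).rep) ∧ height F S φ₀ φ P ≤ B} :
          Set _).ncard : ℝ) / (B * Real.log B ^ (m - 1))) atTop (𝓝 c) := by
  classical
  set G : N852.MM.Sys n k := ⟨F.e, F.T⟩ with hG
  have hdeg : ∀ v, N852.MM.dg G v = deg F v := fun v => Fintype.card_subtype _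
  have hRC : N852.MM.RC G (∑ i, (G.e i).card) := hF.rank
  have hle : ∀ v, deg F v ≤ n v := by
    intro v
    obtain ⟨i, hi⟩ := hF.cover v
    obtain ⟨u, hu, huv⟩ := Finset.exists_mem_ne (by have := hF.two i; omega :
      1 < (F.e i).card) v
    have h1 := hF.rank v u huv.symm (Pi.single i 1) (by
      intro j hj
      by_cases h : j = i
      · subst h
        exact ⟨hi, hu⟩
      · rw [Pi.single_eq_of_ne h] at hj
        exact absurd rfl hj) (by
      intro h0
      have := congrFun h0 i
      simp at this) (fun _ _ => 1) (by
      intro t _ _ h0
      have := congrFun h0 ⟨0, hF.pos t⟩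
      simp at this)
    have h2 := h1.trans_le (Matrix.rank_le_width _)
    have h3 : ∑ i : Fin k, 2 ≤ ∑ i, (F.e i).card := Finset.sum_le_sum fun i _ => hF.two i
    have h4 : deg F v ≤ k := by
      unfold deg
      exact (Finset.card_le_univ _).trans (by simp)
    simp at h3
    omega
  have ho : ∃ o : Fin m, True := by
    obtain ⟨u, hu⟩ := Finset.card_pos.1 (by have := hF.two ⟨0, hk⟩; omega :
      0 < (F.e ⟨0, hk⟩).card)
    exact ⟨u, trivial⟩
  obtain ⟨o, -⟩ := ho
  have hcard : Fintype.card (N852.MM.Vo o) = m - 1 := by
    rw [Fintype.card_subtype_compl]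
    simp
  obtain ⟨c, hc, hlim⟩ := N852.MM.main_RC (F := G) (a := fun v => n v - deg F v) hF.two hF.cover
    (fun v => by rw [hdeg v]; exact Nat.sub_add_cancel (hle v)) rfl hRC o S φ₀
    ⟨h₀.1, h₀.2, h₀.3⟩ φ fun p hp => ⟨(h p hp).1, (h p hp).2, (h p hp).3⟩
  rw [hcard] at hlim
  exact ⟨c, hc, hlim⟩

end Pool.Agent.Results.MP_1acd66_nt.MultilinearSystemsAllHeights
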