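import Mathlib
import Pool.Agent.N852.EL.Fin

/-!
Manin's conjecture over the rational numbers for ALL smooth complete intersections `X` of
multilinear hypersurfaces in products of any number `m` of projective spaces of large dimension,
for a nonempty Zariski open subset and all adelic anticanonical heights.

* `Tuple n K`: families `x` of vectors `x v` of length `n v`, `v = 1, ..., m`: the coordinates of
  the points of the product of the projective spaces of dimensions `n v - 1`.
* `System n k`: `k` forms with integer coefficients; the `i`-th form is linear in each of the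
  vectors `x v` with `v` in the set `e i` and does not depend on the others; `T i` is the array of
  its coefficients and `form F i x` its value.
* `OnX F x`: all forms vanish at `x`; this defines `X`.
* `grad F i x`: the gradient of the `i`-th form: all its partial derivatives (the form is linear in
  `x v` for `v` in `e i`, so its derivative with respect to the coordinate `l` of `x v` is its value
  at the unit vector; for the other `v` it is zero).
* `Smooth F`: the Jacobian criterion at all complex points of `X`: the `k` gradients are linearly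
  independent, i.e. `X` is a smooth complete intersection.
* `deg F v`: the number of the forms which depend on `x v`.
* `LocalFactor F φ`: a positive continuous function on `X(K)`, written as a function of the
  coordinate vectors, which does not change if the vectors are multiplied by nonzero scalars.
* `height F S φ₀ φ P` for a family `P` of rational points of the projective spaces: the adelic
  height `∏_v H(P_v) ^ (n v - deg F v) φ₀(P) ∏_{p ∈ S} φ_p(P)`, where `H` is the usual height of a
  rational point of a projective space (of Mathlib).  The anticanonical bundle of `X` is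
  `O(n v - deg F v)_v`, the canonical metric at a place is given by the maximum norm, and every
  other metric differs from it by a positive continuous function on `X(ℚ_p)`; so these are the
  heights of all adelic metrics on the anticanonical bundle.
* `Multihomogeneous w`: the polynomial `w` is homogeneous in the coordinates of each of the vectors.

The theorem: let every form depend on at least two vectors and every vector occur in a form, let `X`
be smooth and `n v ≥ (m - 1) ∑_i #(e i) + 2 deg F v - k` for all `v`.  Then there is a set `Ω` of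
multihomogeneous polynomials with integer coefficients, which depends only on `X`, such that for
every adelic anticanonical height the number of all rational points of height at most `B` in the
Zariski open subset `U` of `X` where not all members of `Ω` vanish is asymptotic to
`c B (log B) ^ (m - 1)` with some `c > 0`.
-/

namespace Pool.Agent.Results.MP_1acd66_nt.SmoothMultilinearAllHeights

open Filter Topology Function

variable {m k : ℕ} {n : Fin m → ℕ}

/-- families of vectors of lengths `n v` -/
abbrev Tuple (n : Fin m → ℕ) (K : Type*) : Type _ := ∀ v, Fin (n v) → K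

/-- `k` multilinear forms -/
structure System (n : Fin m → ℕ) (k : ℕ) where
  /-- the set of the vectors which occur in the `i`-th form -/
  e : Fin k → Finset (Fin m)
  /-- the coefficients of the `i`-th form -/
  T : ∀ i, (∀ v : e i, Fin (n v)) → ℤ

/-- the value of the `i`-th form -/
def form (F : System n k) {K : Type*} [CommRing K] (i : Fin k) (x : Tuple n K) : K :=
  ∑ j : (∀ v : F.e i, Fin (n v)), (F.T i j : K) * ∏ v : F.e i, x v (j v)

/-- the equations of `X` -/
def OnX (F : System n k) {K : Type*} [CommRing K] (x : Tuple n K) : Prop :=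
  ∀ i, form F i x = 0

/-- the gradient of the `i`-th form -/
def grad (F : System n k) {K : Type*} [CommRing K] (i : Fin k) (x : Tuple n K) : Tuple n K :=
  fun v l => if v ∈ F.e i then form F i (update x v (Pi.single l 1)) else 0

/-- the Jacobian criterion at all complex points of `X` -/
def Smooth (F : System n k) : Prop :=
  ∀ x : Tuple n ℂ, (∀ v, x v ≠ 0) → OnX F x → LinearIndependent ℂ fun i => grad F i x

/-- the number of the forms which depend on `x v` -/
def deg (F : System n k) (v : Fin m) : ℕ := (Finset.univ.filter fun i => v ∈ F.e i).card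

/-- positive continuous functions on `X(K)` -/
structure LocalFactor {K : Type*} [NormedField K] (F : System n k) (φ : Tuple n K → ℝ) :
    Prop where
  continuous : ContinuousOn φ {x | (∀ v, x v ≠ 0) ∧ OnX F x}
  positive : ∀ x, (∀ v, x v ≠ 0) → OnX F x → 0 < φ x
  invariant : ∀ x, (∀ v, x v ≠ 0) → OnX F x → ∀ c : Fin m → K, (∀ v, c v ≠ 0) →
    φ (fun v => c v • x v) = φ x

/-- extension of scalars -/
def ext (K : Type*) [Field K] (x : Tuple n ℚ) : Tuple n K := fun v l => (x v l : K)

instance (p : Nat.Primes) : Fact (p : ℕ).Prime := ⟨p.2⟩

/-- the adelic anticanonical height of a family of rational points of the projective spaces -/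
noncomputable def height (F : System n k) (S : Finset Nat.Primes) (φ₀ : Tuple n ℝ → ℝ)
    (φ : ∀ p : Nat.Primes, Tuple n ℚ_[p] → ℝ) (P : ∀ v, Projectivization ℚ (Fin (n v) → ℚ)) : ℝ :=
  (∏ v, (P v).mulHeight ^ (n v - deg F v)) *
    (φ₀ (ext ℝ fun v => (P v).rep) * ∏ p ∈ S, φ p (ext ℚ_[p] fun v => (P v).rep))

/-- homogeneous in the coordinates of each vector -/
def Multihomogeneous (w : MvPolynomial (Σ v, Fin (n v)) ℤ) : Prop :=
  ∃ δ : Fin m → ℕ, ∀ β ∈ w.support, ∀ v, ∑ l, β ⟨v, l⟩ = δ v

theorem result (hk : 1 ≤ k) (F : System n k) (h2 : ∀ i, 2 ≤ (F.e i).card)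
    (hc : ∀ v, ∃ i, v ∈ F.e i) (hF : Smooth F)
    (hn : ∀ v, (m - 1) * ∑ i, (F.e i).card + 2 * deg F v ≤ n v + k) :
    ∃ Ω : Set (MvPolynomial (Σ v, Fin (n v)) ℤ), (∀ w ∈ Ω, Multihomogeneous w) ∧
      ∀ (S : Finset Nat.Primes) (φ₀ : Tuple n ℝ → ℝ) (φ : ∀ p : Nat.Primes, Tuple n ℚ_[p] → ℝ),
        LocalFactor F φ₀ → (∀ p ∈ S, LocalFactor F (φ p)) →
        ∃ c : ℝ, 0 < c ∧ Tendsto (fun B : ℝ =>
          (({P : ∀ v, Projectivization ℚ (Fin (n v) → ℚ) | OnX F (fun v => (P v).rep) ∧
            (∃ w ∈ Ω, MvPolynomial.aeval (fun q : (Σ v, Fin (n v)) => (P q.1).rep q.2) w ≠ 0) ∧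
            height F S φ₀ φ P ≤ B} : Set _).ncard : ℝ) /
              (B * Real.log B ^ (m - 1))) atTop (𝓝 c) := by
  classical
  set G : N852.MM.Sys n k := ⟨F.e, F.T⟩ with hG
  have hdeg : ∀ v, N852.MM.dg G v = deg F v := fun v => Fintype.card_subtype _
  have hSm : N852.EL.Sm G := by
    intro x hx hi s hs
    have h1 := hF x hx hi
    rw [Fintype.linearIndependent_iff] at h1
    funext i
    refine h1 s ?_ i
    funext v l
    rw [Finset.sum_apply, Finset.sum_apply]
    have h3 := hs v l
    have h4 : ∑ i : {i : Fin k // v ∈ F.e i}, s i * form F i.1 (update x v (Pi.single l 1)) = 0 := h3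
    rw [Pi.zero_apply, Pi.zero_apply, ← h4,
      ← Finset.sum_subtype (Finset.univ.filter fun i => v ∈ F.e i) (by simp)
        (fun i => s i * form F i (update x v (Pi.single l 1))), Finset.sum_filter]
    refine Finset.sum_congr rfl fun i _ => ?_
    show s i * grad F i x v l = _
    unfold grad
    split_ifs
    · rfl
    · rw [mul_zero]
  have hle : ∀ v, deg F v ≤ n v := by
    intro v
    have := N852.EL.dims (F := G) h2 hc (fun v => by rw [hdeg v, Fintype.card_fin]; exact hn v) v
    have h3 : ∑ i : Fin k, 2 ≤ ∑ i, (F.e i).card := Finset.sum_le_sum fun i _ => h2 i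
    have h4 : deg F v ≤ k := by
      unfold deg
      exact (Finset.card_le_univ _).trans (by simp)
    simp at h3
    have h5 : (∑ i, (F.e i).card) + 1 ≤ n v := this
    omega
  have ho : ∃ o : Fin m, True := by
    obtain ⟨u, hu⟩ := Finset.card_pos.1 (by have := h2 ⟨0, hk⟩; omega :
      0 < (F.e ⟨0, hk⟩).card)
    exact ⟨u, trivial⟩
  obtain ⟨o, -⟩ := ho
  have hcard : Fintype.card (N852.MM.Vo o) = m - 1 := by
    rw [Fintype.card_subtype_compl]
    simp
  obtain ⟨A, Ω, hE, hΩ⟩ := N852.EL.open_smooth (F := G) N852.EL.genP N852.EL.engS N852.EL.closP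
    h2 hc hSm (fun v => by rw [hdeg v, Fintype.card_fin]; exact hn v)
    (a := fun v => n v - deg F v)
    (fun v => by rw [hdeg v]; exact Nat.sub_add_cancel (hle v))
  refine ⟨Ω, hΩ.1, ?_⟩
  intro S φ₀ φ h₀ h
  obtain ⟨c, hc', hlim⟩ := N852.EL.main_open hE N852.EL.gqs_iff hΩ o S φ₀
    ⟨h₀.1, h₀.2, h₀.3⟩ φ fun p hp => ⟨(h p hp).1, (h p hp).2, (h p hp).3⟩
  rw [hcard] at hlim
  exact ⟨c, hc', hlim⟩

end Pool.Agent.Results.MP_1acd66_nt.SmoothMultilinearAllHeights
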